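import Pool.Agent.W792.GK.Stm

/-!
# Circulant matrices are bounded by the sup norm of the symbol
-/

set_option autoImplicit false
set_option linter.unusedSectionVars false
set_option linter.unusedVariables false

namespace Pool.Agent.W417.GK

open Pool.Agent.W792.GK

noncomputable section

local instance addCharFintype (G : Type) [AddCommGroup G] [Finite G] : Fintype (AddChar G ℂ) :=
  AddChar.instFintype G ℂ

section parseval

variable {G : Type} [AddCommGroup G] [Fintype G] [DecidableEq G]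

/-- Fourier transform -/
def ft (u : G → ℂ) (χ : AddChar G ℂ) : ℂ := ∑ x, χ (-x) * u x

theorem norm_sq_eq (w : ℂ) : ((‖w‖ ^ 2 : ℝ) : ℂ) = w * (starRingEnd ℂ) w := by
  rw [Complex.mul_conj, Complex.normSq_eq_norm_sq]

theorem parseval (u : G → ℂ) :
    ∑ χ : AddChar G ℂ, ‖ft u χ‖ ^ 2 = Fintype.card G * ∑ x, ‖u x‖ ^ 2 := by
  have h : ((∑ χ : AddChar G ℂ, ‖ft u χ‖ ^ 2 : ℝ) : ℂ) =
      ((Fintype.card G * ∑ x, ‖u x‖ ^ 2 : ℝ) : ℂ) := by
    rw [Complex.ofReal_sum, Complex.ofReal_mul, Complex.ofReal_natCast, Complex.ofReal_sum]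
    simp only [norm_sq_eq]
    have h1 : ∀ χ : AddChar G ℂ, ft u χ * (starRingEnd ℂ) (ft u χ) =
        ∑ x, ∑ y, (u x * (starRingEnd ℂ) (u y)) * χ (y - x) := by
      intro χ
      unfold ft
      rw [map_sum, Finset.sum_mul_sum]
      refine Finset.sum_congr rfl fun x _ => Finset.sum_congr rfl fun y _ => ?_
      rw [map_mul, ← AddChar.map_neg_eq_conj, neg_neg, sub_eq_add_neg, AddChar.map_add_eq_mul]
      ring
    rw [Finset.sum_congr rfl fun χ _ => h1 χ, Finset.sum_comm]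
    rw [Finset.mul_sum]
    refine Finset.sum_congr rfl fun x _ => ?_
    rw [Finset.sum_comm, Finset.sum_eq_single x]
    · rw [← Finset.mul_sum, AddChar.sum_apply_eq_ite, if_pos (sub_self x)]
      ring
    · intro y _ hy
      rw [← Finset.mul_sum, AddChar.sum_apply_eq_ite, if_neg (sub_ne_zero.2 hy), mul_zero]
    · intro h
      exact absurd (Finset.mem_univ _) h
  exact_mod_cast h

theorem ft_conv (k u : G → ℂ) (χ : AddChar G ℂ) :
    ft (fun x => ∑ y, k (x - y) * u y) χ = ft k χ * ft u χ := by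
  unfold ft
  rw [Finset.sum_mul_sum]
  have h1 : ∀ x, χ (-x) * ∑ y, k (x - y) * u y = ∑ y, χ (-(x - y)) * k (x - y) * (χ (-y) * u y) := by
    intro x
    rw [Finset.mul_sum]
    refine Finset.sum_congr rfl fun y _ => ?_
    have h2 : χ (-x) = χ (-(x - y)) * χ (-y) := by
      rw [← AddChar.map_add_eq_mul]
      congr 1
      abel
    rw [h2]
    ring
  rw [Finset.sum_congr rfl fun x _ => h1 x, Finset.sum_comm]
  conv_rhs => rw [Finset.sum_comm]
  refine Finset.sum_congr rfl fun y _ => ?_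
  exact Fintype.sum_equiv (Equiv.subRight y) _ _ fun x => rfl

theorem opB_conv (k : G → ℂ) (C : ℝ) (hC : 0 ≤ C) (h : ∀ χ : AddChar G ℂ, ‖ft k χ‖ ≤ C)
    (u : G → ℂ) :
    ∑ x, ‖∑ y, k (x - y) * u y‖ ^ 2 ≤ C ^ 2 * ∑ x, ‖u x‖ ^ 2 := by
  have hcard : (0 : ℝ) < Fintype.card G := by
    have : 0 < Fintype.card G := Fintype.card_pos
    exact_mod_cast this
  have h1 := parseval (fun x => ∑ y, k (x - y) * u y)
  have h2 : ∑ χ : AddChar G ℂ, ‖ft (fun x => ∑ y, k (x - y) * u y) χ‖ ^ 2 ≤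
      ∑ χ : AddChar G ℂ, C ^ 2 * ‖ft u χ‖ ^ 2 := by
    refine Finset.sum_le_sum fun χ _ => ?_
    rw [ft_conv, norm_mul, mul_pow]
    exact mul_le_mul_of_nonneg_right (pow_le_pow_left₀ (norm_nonneg _) (h χ) 2) (by positivity)
  rw [h1, ← Finset.mul_sum, parseval] at h2
  have h3 : (Fintype.card G : ℝ) * ∑ x, ‖∑ y, k (x - y) * u y‖ ^ 2 ≤
      (Fintype.card G : ℝ) * (C ^ 2 * ∑ x, ‖u x‖ ^ 2) := by
    refine h2.trans_eq ?_
    ring
  exact le_of_mul_le_mul_left h3 hcard

end parseval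

section torus

variable {ι : Type} [Fintype ι] [DecidableEq ι]

/-- A character of the finite group gives a point of the torus. -/
theorem exists_point (ℓ : ℕ) [NeZero ℓ] (χ : AddChar (ι → ZMod ℓ) ℂ) :
    ∃ θ : UnitAddTorus ι, ∀ n : ι → ℤ,
      UnitAddTorus.mFourier n θ = χ (-(fun i => ((n i : ℤ) : ZMod ℓ))) := by
  have h1 : ∀ i : ι, ∃ t : UnitAddCircle, ∀ m : ℤ,
      fourier m t = (χ (-(Pi.single i (1 : ZMod ℓ)))) ^ m := by
    intro i
    set z := χ (-(Pi.single i (1 : ZMod ℓ))) with hz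
    have hz1 : ‖z‖ = 1 := AddChar.norm_apply χ _
    refine ⟨((Complex.arg z / (2 * Real.pi) : ℝ) : UnitAddCircle), fun m => ?_⟩
    rw [fourier_coe_apply]
    have h2 : Complex.exp (Complex.arg z * Complex.I) = z := by
      have := Complex.norm_mul_exp_arg_mul_I z
      rw [hz1, Complex.ofReal_one, one_mul] at this
      exact this
    conv_rhs => rw [← h2]
    rw [← Complex.exp_int_mul]
    congr 1
    have hpi : (Real.pi : ℂ) ≠ 0 := by exact_mod_cast Real.pi_ne_zero
    push_cast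
    field_simp
  choose θ hθ using h1
  refine ⟨θ, fun n => ?_⟩
  change ∏ i, fourier (n i) (θ i) = _
  have h2 : (-(fun i => ((n i : ℤ) : ZMod ℓ))) = ∑ i, n i • (-(Pi.single i (1 : ZMod ℓ))) := by
    funext i
    rw [Finset.sum_apply, Finset.sum_eq_single i]
    · simp
    · intro j _ hj
      simp [Pi.single_eq_of_ne (Ne.symm hj)]
    · intro h
      exact absurd (Finset.mem_univ _) h
  have h3 : ∀ (s : Finset ι) (g : ι → (ι → ZMod ℓ)), χ (∑ i ∈ s, g i) = ∏ i ∈ s, χ (g i) := by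
    intro s g
    induction s using Finset.induction_on with
    | empty => simp
    | insert a s ha ih => rw [Finset.sum_insert ha, Finset.prod_insert ha,
        AddChar.map_add_eq_mul, ih]
  rw [h2, h3]
  refine Finset.prod_congr rfl fun i _ => ?_
  rw [hθ, AddChar.map_zsmul_eq_zpow]

theorem ft_circ (ℓ : ℕ) [NeZero ℓ] (h : (ι → ℤ) →₀ ℂ) (χ : AddChar (ι → ZMod ℓ) ℂ) :
    ∃ θ : UnitAddTorus ι,
      ft (fun x => (h.mapDomain (fun n i => ((n i : ℤ) : ZMod ℓ))) x) χ = trig h θ := by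
  obtain ⟨θ, hθ⟩ := exists_point ℓ χ
  refine ⟨θ, ?_⟩
  unfold ft trig
  have h1 : ∑ x : ι → ZMod ℓ, χ (-x) * (h.mapDomain (fun n i => ((n i : ℤ) : ZMod ℓ))) x =
      (h.mapDomain (fun (n : ι → ℤ) i => ((n i : ℤ) : ZMod ℓ))).sum fun x c => χ (-x) * c := by
    rw [Finsupp.sum_fintype]
    intro x
    exact mul_zero _
  rw [h1, Finsupp.sum_mapDomain_index (fun _ => mul_zero _) (fun _ _ _ => mul_add _ _ _)]
  rw [Finsupp.sum, Finsupp.sum, ContinuousMap.coe_sum, Finset.sum_apply]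
  refine Finset.sum_congr rfl fun n _ => ?_
  rw [ContinuousMap.smul_apply, hθ, smul_eq_mul, mul_comm]

end torus

theorem main : S_CIRC1 := by
  intro ι _ _ h f hh hf ℓ _
  constructor
  · have hk : ∀ x : ι → ZMod ℓ, (h.mapDomain (fun n i => ((n i : ℤ) : ZMod ℓ))) (-x) =
        (starRingEnd ℂ) ((h.mapDomain (fun n i => ((n i : ℤ) : ZMod ℓ))) x) := by
      intro x
      have h1 : Finsupp.mapRange (starRingEnd ℂ) (map_zero _) h =
          h.mapDomain (fun n : ι → ℤ => -n) := by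
        ext n
        rw [Finsupp.mapRange_apply, ← hh]
        have := Finsupp.mapDomain_apply (f := fun n : ι → ℤ => -n) neg_injective h (-n)
        rw [← this]
        simp
      have h2 := Finsupp.mapDomain_mapRange (fun (n : ι → ℤ) i => ((n i : ℤ) : ZMod ℓ)) h
        (starRingEnd ℂ) (map_zero _) (map_add _)
      rw [h1, ← Finsupp.mapDomain_comp] at h2
      have h3 : ((fun (n : ι → ℤ) i => ((n i : ℤ) : ZMod ℓ)) ∘ fun n : ι → ℤ => -n) =
          (fun x : ι → ZMod ℓ => -x) ∘ (fun (n : ι → ℤ) i => ((n i : ℤ) : ZMod ℓ)) := by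
        funext n i
        simp
      rw [h3, Finsupp.mapDomain_comp] at h2
      have h4 := DFunLike.congr_fun h2 x
      rw [Finsupp.mapRange_apply] at h4
      rw [← h4]
      have h5 := Finsupp.mapDomain_apply (f := fun x : ι → ZMod ℓ => -x) neg_injective
        (h.mapDomain (fun n i => ((n i : ℤ) : ZMod ℓ))) (-x)
      rw [← h5]
      simp
    ext i j
    rw [Matrix.conjTranspose_apply]
    change (starRingEnd ℂ) ((h.mapDomain (fun n i => ((n i : ℤ) : ZMod ℓ))) (j - i)) =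
      (h.mapDomain (fun n i => ((n i : ℤ) : ZMod ℓ))) (i - j)
    rw [← hk, neg_sub]
  · intro u
    have h1 := opB_conv (fun x => (h.mapDomain (fun n i => ((n i : ℤ) : ZMod ℓ))) x) ‖f‖
      (norm_nonneg f) (fun χ => by
        obtain ⟨θ, hθ⟩ := ft_circ ℓ h χ
        rw [hθ, ← hf, Complex.norm_real]
        exact ContinuousMap.norm_coe_le_norm f θ) u
    exact h1

end

end Pool.Agent.W417.GK
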